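import Mathlib
import Pool.Agent.P.MP_6f280c_lc.Defs
import Pool.Agent.P.MP_6f280c_lc.H7Main

set_option autoImplicit false

open Pool.Agent.P.MP_6f280c_lc

namespace Pool.Agent.Results.MP_6f280c_lc.EightFifths

/-- Deterministic maximal matching in `O((log N)^(8/5) * (log log N)^2)` rounds of the LOCAL
model, on all graphs. Nodes are named by their identifiers in `Fin N`; the output of a node
depends only on its `T`-round view. -/
theorem result : ∃ C : ℝ, ∀ N : ℕ, 16 ≤ N →
    ∃ (T : ℕ) (A : SimpleGraph (Fin N) → Fin N → Option (Fin N)),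
      (T : ℝ) ≤ C * Real.log N ^ (8 / 5 : ℝ) * Real.log (Real.log N) ^ 2 ∧
      (∀ (G G' : SimpleGraph (Fin N)) (v : Fin N), SameView T G G' v → A G v = A G' v) ∧
      ∀ G : SimpleGraph (Fin N), IsMaximalMatching G (A G) := main85

end Pool.Agent.Results.MP_6f280c_lc.EightFifths
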