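import Mathlib
import Pool.Agent.P.MP_6f280c_lc.Defs
import Pool.Agent.P.MP_6f280c_lc.H5Deg

set_option autoImplicit false

open Pool.Agent.P.MP_6f280c_lc

namespace Pool.Agent.Results.MP_6f280c_lc.SmallDegree

/-- Deterministic colouring with `deg + 1` colours in `O(log N + Δ ^ η)` rounds of the LOCAL
model, for every `η > 0`. Nodes are named by their identifiers in `Fin N`; the output of a node
depends only on its `T`-round view; node `v` gets a colour in `{0, ..., deg v}`. -/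
theorem result : ∀ η : ℝ, 0 < η → ∃ C : ℝ, ∀ N Δ : ℕ, 2 ≤ N → 1 ≤ Δ →
    ∃ (T : ℕ) (A : SimpleGraph (Fin N) → Fin N → ℕ),
      (T : ℝ) ≤ C * (Real.log N + (Δ : ℝ) ^ η) ∧
      (∀ G G' : SimpleGraph (Fin N), (∀ v, (G.neighborSet v).ncard ≤ Δ) →
        (∀ v, (G'.neighborSet v).ncard ≤ Δ) → ∀ v, SameView T G G' v → A G v = A G' v) ∧
      ∀ G : SimpleGraph (Fin N), (∀ v, (G.neighborSet v).ncard ≤ Δ) →
        (∀ v, A G v ≤ (G.neighborSet v).ncard) ∧ ∀ v u, G.Adj v u → A G v ≠ A G u :=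
  h5_main_deg

end Pool.Agent.Results.MP_6f280c_lc.SmallDegree
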