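import Mathlib
import Pool.Agent.P.MP_6f280c_lc.Defs
import Pool.Agent.P.MP_6f280c_lc.H5Arb

set_option autoImplicit false

open Pool.Agent.P.MP_6f280c_lc

namespace Pool.Agent.Results.MP_6f280c_lc.SparseColouring

/-- Deterministic colouring with `O(a ^ (1 + ε))` colours in `O(log N)` rounds of the LOCAL model,
for graphs in which every vertex set `s` spans at most `a * |s|` edges (for example graphs of
arboricity at most `a`). Nodes are named by their identifiers in `Fin N`; the output of a node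
depends only on its `T`-round view. -/
theorem result : ∀ ε : ℝ, 0 < ε → ∃ C : ℝ, ∀ N a : ℕ, 2 ≤ N → 1 ≤ a →
    ∃ (T : ℕ) (A : SimpleGraph (Fin N) → Fin N → ℕ),
      (T : ℝ) ≤ C * Real.log N ∧
      (∀ G G' : SimpleGraph (Fin N),
        (∀ s : Set (Fin N), (G.induce s).edgeSet.ncard ≤ a * s.ncard) →
        (∀ s : Set (Fin N), (G'.induce s).edgeSet.ncard ≤ a * s.ncard) →
        ∀ v, SameView T G G' v → A G v = A G' v) ∧
      ∀ G : SimpleGraph (Fin N), (∀ s : Set (Fin N), (G.induce s).edgeSet.ncard ≤ a * s.ncard) →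
        (∀ v, (A G v : ℝ) < C * (a : ℝ) ^ (1 + ε)) ∧ ∀ v u, G.Adj v u → A G v ≠ A G u :=
  h5_main_arb

end Pool.Agent.Results.MP_6f280c_lc.SparseColouring
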