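import Mathlib
import Pool.Agent.P.MP_6f280c_lc.Defs
import Pool.Agent.P.MP_6f280c_lc.Dc.Final

set_option autoImplicit false

open Pool.Agent.P.MP_6f280c_lc

namespace Pool.Agent.Results.MP_6f280c_lc.ThreeHalves

/-- Deterministic colouring with `Δ + 1` colours in
`O(log N * min (log Δ) (sqrt (log N)) * (log log N) ^ 8)` rounds of the LOCAL model. Nodes are
named by their identifiers in `Fin N`; the output of a node depends only on its `T`-round view;
every node gets a colour in `{0, ..., Δ}`. -/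
theorem result : ∃ C : ℝ, ∀ N Δ : ℕ, 16 ≤ N → 2 ≤ Δ →
    ∃ (T : ℕ) (A : SimpleGraph (Fin N) → Fin N → ℕ),
      (T : ℝ) ≤ C * Real.log N * min (Real.log Δ) (Real.sqrt (Real.log N)) *
        Real.log (Real.log N) ^ 8 ∧
      (∀ G G' : SimpleGraph (Fin N), (∀ v, (G.neighborSet v).ncard ≤ Δ) →
        (∀ v, (G'.neighborSet v).ncard ≤ Δ) → ∀ v, SameView T G G' v → A G v = A G' v) ∧
      ∀ G : SimpleGraph (Fin N), (∀ v, (G.neighborSet v).ncard ≤ Δ) →
        (∀ v, A G v ≤ Δ) ∧ ∀ v u, G.Adj v u → A G v ≠ A G u :=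
  Dc.main_of Dc.p_time Dc.loc_all

end Pool.Agent.Results.MP_6f280c_lc.ThreeHalves
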